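import Pool.Agent.Helper20.EP.Spec2

/-!
# EP, part HITO: no nontrivial partition of the roots is respected for many `s`
-/

set_option autoImplicit false

open Polynomial Filter Topology

namespace Pool.Agent.Helper59.EP.HITO

open Pool.Agent.Helper20.EP

section Coeff

variable {α : Type} [DecidableEq α]

/-- The recursion for the coefficients of a product of linear factors. -/
theorem coeff_prod_insert {R : Type} [CommRing R] (s : Finset α) (a : α) (ha : a ∉ s)
    (f : α → R) (j : ℕ) :
    (∏ i ∈ insert a s, (X - C (f i))).coeff j =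
      (if j = 0 then 0 else (∏ i ∈ s, (X - C (f i))).coeff (j - 1)) -
        f a * (∏ i ∈ s, (X - C (f i))).coeff j := by
  rw [Finset.prod_insert ha, sub_mul, coeff_sub, coeff_C_mul]
  congr 1
  cases j with
  | zero => simp
  | succ n => simp [coeff_X_mul]

theorem coeff_diff (s : Finset α) (f : α → ℂ → ℂ) (U : Set ℂ)
    (hf : ∀ i ∈ s, DifferentiableOn ℂ (f i) U) (j : ℕ) :
    DifferentiableOn ℂ (fun w => (∏ i ∈ s, (X - C (f i w))).coeff j) U := by
  induction s using Finset.induction_on generalizing j with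
  | empty => simp only [Finset.prod_empty]; exact differentiableOn_const _
  | insert a s ha ih =>
    have ih' := ih (fun i hi => hf i (Finset.mem_insert_of_mem hi))
    have hfa := hf a (Finset.mem_insert_self a s)
    have : (fun w => (∏ i ∈ insert a s, (X - C (f i w))).coeff j) = fun w =>
        (if j = 0 then 0 else (∏ i ∈ s, (X - C (f i w))).coeff (j - 1)) -
        f a w * (∏ i ∈ s, (X - C (f i w))).coeff j := by
      funext w
      exact coeff_prod_insert s a ha (fun i => f i w) j
    rw [this]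
    by_cases hj : j = 0
    · simp only [hj, if_true]
      exact (differentiableOn_const _).sub (hfa.mul (ih' 0))
    · simp only [hj, if_false]
      exact (ih' (j - 1)).sub (hfa.mul (ih' j))

theorem coeff_norm (s : Finset α) (f : α → ℂ) (B : ℝ) (hB : 0 ≤ B)
    (hf : ∀ i ∈ s, ‖f i‖ ≤ B) (j : ℕ) :
    ‖(∏ i ∈ s, (X - C (f i))).coeff j‖ ≤ (1 + B) ^ s.card := by
  induction s using Finset.induction_on generalizing j with
  | empty =>
    simp only [Finset.prod_empty, Finset.card_empty, pow_zero, coeff_one]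
    split_ifs <;> simp
  | insert a s ha ih =>
    have ih' := ih (fun i hi => hf i (Finset.mem_insert_of_mem hi))
    have hfa := hf a (Finset.mem_insert_self a s)
    rw [coeff_prod_insert s a ha, Finset.card_insert_of_notMem ha, pow_succ]
    have h0 : 0 ≤ (1 + B) ^ s.card := by positivity
    have h1 : ‖(if j = 0 then 0 else (∏ i ∈ s, (X - C (f i))).coeff (j - 1))‖ ≤
        (1 + B) ^ s.card := by
      split_ifs
      · simpa using h0
      · exact ih' _
    have h2 : ‖f a * (∏ i ∈ s, (X - C (f i))).coeff j‖ ≤ B * (1 + B) ^ s.card := by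
      rw [norm_mul]
      exact mul_le_mul hfa (ih' j) (norm_nonneg _) hB
    calc _ ≤ _ := norm_sub_le _ _
      _ ≤ (1 + B) ^ s.card + B * (1 + B) ^ s.card := add_le_add h1 h2
      _ = (1 + B) ^ s.card * (1 + B) := by ring

theorem coeff_integral {R : Type} [CommRing R] (s : Finset α) (f : α → R)
    (hf : ∀ i ∈ s, IsIntegral ℤ (f i)) (j : ℕ) :
    IsIntegral ℤ ((∏ i ∈ s, (X - C (f i))).coeff j) := by
  induction s using Finset.induction_on generalizing j with
  | empty =>
    simp only [Finset.prod_empty, coeff_one]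
    split_ifs
    · exact isIntegral_one
    · exact isIntegral_zero
  | insert a s ha ih =>
    have ih' := ih (fun i hi => hf i (Finset.mem_insert_of_mem hi))
    have hfa := hf a (Finset.mem_insert_self a s)
    rw [coeff_prod_insert s a ha]
    refine IsIntegral.sub ?_ (hfa.mul (ih' j))
    split_ifs
    · exact isIntegral_zero
    · exact ih' _

end Coeff

/-- A root `z` of `monC F w` satisfies `F(z / b) = w`. -/
theorem eval_comp_of_root (F : ℤ[X]) (w z : ℂ) (hd : 1 ≤ F.natDegree)
    (hz : (monC F w).eval z = 0) :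
    ((F.map (Int.castRingHom ℂ)).comp (C ((F.leadingCoeff : ℂ)⁻¹) * X)).eval z = w := by
  have hF : F ≠ 0 := by rintro rfl; simp at hd
  have hb : (F.leadingCoeff : ℂ) ≠ 0 := by exact_mod_cast leadingCoeff_ne_zero.mpr hF
  have hinj : Function.Injective (Int.castRingHom ℂ) := by
    intro a b h; simpa using h
  have hdm : (F.map (Int.castRingHom ℂ)).natDegree = F.natDegree :=
    natDegree_map_eq_of_injective hinj F
  have hlt : (C w).degree < (F.map (Int.castRingHom ℂ)).degree := by
    refine lt_of_le_of_lt degree_C_le ?_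
    rw [← natDegree_pos_iff_degree_pos, hdm]
    omega
  have hlc : (F.map (Int.castRingHom ℂ) - C w).leadingCoeff = (F.leadingCoeff : ℂ) := by
    rw [leadingCoeff_sub_of_degree_lt hlt, leadingCoeff_map_of_injective hinj]
    simp
  have h1 := congrArg (eval z) (integralNormalization_mul_C_leadingCoeff
    (F.map (Int.castRingHom ℂ) - C w))
  rw [hlc] at h1
  rw [eval_mul, eval_C] at h1
  have h2 : eval z (F.map (Int.castRingHom ℂ) - C w).integralNormalization = 0 := hz
  rw [h2, zero_mul] at h1
  have h3 : z = (F.leadingCoeff : ℂ) * ((F.leadingCoeff : ℂ)⁻¹ * z) := by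
    field_simp
  rw [h3, scaleRoots_eval_mul] at h1
  have h4 := (mul_eq_zero.mp h1.symm).resolve_left (pow_ne_zero _ hb)
  rw [eval_sub, eval_C, sub_eq_zero] at h4
  simpa [eval_comp] using h4

theorem main (hM : S_MON) (h : S_DETK) : S_HITO := by
  classical
  intro d hd
  obtain ⟨m, c, hc0, hc1, h1⟩ := h (4 * d) d
  refine ⟨c, hc0, hc1, fun ρ hρ => ?_⟩
  obtain ⟨C₁, M₁, h2⟩ := h1 ρ (d + 1) (m * d + d) hρ
  refine ⟨C₁, max M₁ 2, ?_⟩
  intro F M c₀ ξ S K _ _ _ ι x g hL hM1 hS hsys part π hpart hcard i j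
  have hM2 : (2 : ℝ) ≤ M := le_trans (le_max_right _ _) hM1
  have hMM : M₁ ≤ M := le_trans (le_max_left _ _) hM1
  have hball : ∀ s ∈ S, (s : ℂ) ∈ Metric.ball (c₀ : ℂ) (ρ * M) := by
    intro s hs
    rw [Metric.mem_ball, dist_eq_norm]
    have e1 : ((s : ℂ) - (c₀ : ℂ)) = (((s : ℝ) - c₀ : ℝ) : ℂ) := by push_cast; ring
    rw [e1, Complex.norm_real, Real.norm_eq_abs]
    have := hS s hs
    have h0 : 0 < ρ * M := by positivity
    linarith
  have hiota : Function.Injective ι := ι.injective
  have hint : ∀ s ∈ S, ∀ l, IsIntegral ℤ (x s l) := by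
    intro s hs l
    obtain ⟨hmon, -, hmap, -⟩ := hM F s (by rw [hL.deg]; exact hd)
    refine ⟨mon F s, hmon, ?_⟩
    apply hiota
    rw [map_zero]
    have hroot : (monC F (s : ℂ)).eval (ξ l s) = 0 := by
      rw [hL.roots _ (hball s hs), eval_prod]
      exact Finset.prod_eq_zero (Finset.mem_univ l) (by simp)
    rw [← hmap, eval_map, ← hsys.emb s hs l] at hroot
    rw [hom_eval₂, show ι.comp (algebraMap ℤ K) = Int.castRingHom ℂ from RingHom.ext_int _ _]
    exact hroot
  let O : Fin d → Finset (Fin d) := fun a => Finset.univ.filter (fun i => part i = a)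
  have hcardO : ∀ a, (O a).card ≤ d := fun a => by
    simpa using Finset.card_le_univ (O a)
  obtain ⟨Q, S', hS', hD, hQ⟩ := h2 M c₀
    (fun j a w => (∏ i ∈ O a, (X - C (ξ i w))).coeff j) S K ι
    (fun j a s => (∏ i ∈ O a, (X - C (x s i))).coeff j) π hMM
    (fun j a => coeff_diff _ _ _ (fun i _ => hL.diff i) _)
    (by
      intro j a w hw
      refine (coeff_norm (O a) (fun i => ξ i w) (M ^ 3) (by positivity)
        (fun i _ => hL.bd i w hw) _).trans ?_
      have e1 : 1 + M ^ 3 ≤ M ^ 4 := by
        have : 1 ≤ M ^ 3 := one_le_pow₀ (by linarith)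
        nlinarith
      have e2 : (1 : ℝ) ≤ M ^ 4 := one_le_pow₀ (by linarith)
      calc (1 + M ^ 3) ^ (O a).card ≤ (M ^ 4) ^ (O a).card :=
            pow_le_pow_left₀ (by positivity) e1 _
        _ ≤ (M ^ 4) ^ d := pow_le_pow_right₀ e2 (hcardO a)
        _ = M ^ (4 * d) := by rw [← pow_mul])
    hS
    (by
      intro s hs j a
      constructor
      · rw [← coeff_map, Polynomial.map_prod]
        simp only [Polynomial.map_sub, map_X, map_C, hsys.emb s hs]
      · exact coeff_integral _ _ (fun i _ => hint s hs i) _)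
    (by
      intro γ s hs j a
      have e1 : γ ((∏ i ∈ O a, (X - C (x s i))).coeff j) =
          ((∏ i ∈ O a, (X - C (x s i))).map (γ : K →+* K)).coeff j := by
        rw [coeff_map]; rfl
      show γ ((∏ i ∈ O a, (X - C (x s i))).coeff j) = (∏ i ∈ O (π γ a), (X - C (x s i))).coeff j
      rw [e1, Polynomial.map_prod]
      congr 1
      refine Finset.prod_bij (fun i _ => g s γ i) ?_ ?_ ?_ ?_
      · intro l hl
        simp only [O, Finset.mem_filter, Finset.mem_univ, true_and] at hl ⊢
        rw [hpart γ s hs l, hl]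
      · intro l _ l' _ hll
        exact (g s γ).injective hll
      · intro l hl
        refine ⟨(g s γ).symm l, ?_, by simp⟩
        simp only [O, Finset.mem_filter, Finset.mem_univ, true_and] at hl ⊢
        apply (π γ).injective
        rw [← hpart γ s hs, Equiv.apply_symm_apply, hl]
      · intro l _
        simp only [Polynomial.map_sub, map_X, map_C]
        congr 2
        exact hsys.act s hs γ l)
    hcard
  by_contra hij
  set A : ℂ[X] := (F.map (Int.castRingHom ℂ)).comp (C ((F.leadingCoeff : ℂ)⁻¹) * X) with hA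
  have hAdeg : A.natDegree ≤ d := by
    rw [hA]
    refine natDegree_comp_le.trans ?_
    have e1 : (F.map (Int.castRingHom ℂ)).natDegree ≤ d := by
      rw [← hL.deg]; exact natDegree_map_le
    have e2 : (C ((F.leadingCoeff : ℂ)⁻¹) * X).natDegree ≤ 1 :=
      (natDegree_C_mul_le _ _).trans natDegree_X_le
    calc _ ≤ d * 1 := Nat.mul_le_mul e1 e2
      _ = d := mul_one d
  set a := part i with ha
  set u : ℂ[X] := ∑ n : Fin (d + 1), (Q n a).comp A * X ^ (n : ℕ) with hu
  have hudeg : u.natDegree ≤ m * d + d := by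
    rw [hu]
    refine natDegree_sum_le_of_forall_le _ _ (fun n _ => ?_)
    refine natDegree_mul_le.trans ?_
    have e1 : ((Q n a).comp A).natDegree ≤ m * d :=
      natDegree_comp_le.trans (Nat.mul_le_mul (hQ n a).1 hAdeg)
    have e2 : ((X : ℂ[X]) ^ (n : ℕ)).natDegree ≤ d := by
      rw [natDegree_X_pow]; have := n.2; omega
    omega
  have hAval : ∀ s ∈ S, ∀ l, A.eval (ξ l (s : ℂ)) = (s : ℂ) := by
    intro s hs l
    refine eval_comp_of_root F _ _ (by rw [hL.deg]; exact hd) ?_
    rw [hL.roots _ (hball s hs), eval_prod]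
    exact Finset.prod_eq_zero (Finset.mem_univ l) (by simp)
  have huval : ∀ s ∈ S', ∀ l, u.eval (ξ l (s : ℂ)) =
      ∏ i' ∈ O a, (ξ l (s : ℂ) - ξ i' (s : ℂ)) := by
    intro s hs l
    have e0 : (∏ i' ∈ O a, (X - C (ξ i' (s : ℂ)))).natDegree < d + 1 := by
      rw [natDegree_prod_of_monic _ _ (fun i' _ => monic_X_sub_C _)]
      simp only [natDegree_X_sub_C, Finset.sum_const, smul_eq_mul, mul_one]
      have := hcardO a
      omega
    have e1 : (∏ i' ∈ O a, (ξ l (s : ℂ) - ξ i' (s : ℂ))) =
        eval (ξ l (s : ℂ)) (∏ i' ∈ O a, (X - C (ξ i' (s : ℂ)))) := by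
      rw [eval_prod]; simp
    have e2 := Fin.sum_univ_eq_sum_range
      (fun n => (∏ i' ∈ O a, ((X : ℂ[X]) - C (ξ i' (s : ℂ)))).coeff n * ξ l (s : ℂ) ^ n) (d + 1)
    rw [e1, eval_eq_sum_range' e0, ← e2, hu, eval_finsetSum]
    refine Finset.sum_congr rfl (fun n _ => ?_)
    rw [eval_mul, eval_comp, hAval s (hS' hs) l, eval_pow, eval_X]
    congr 1
    exact ((hQ n a).2 s hs).symm
  have hi : i ∈ O a := by simp [O, ha]
  have hu0 : u = 0 := by
    have hinj : Set.InjOn (fun s : ℤ => ξ i (s : ℂ)) (S' : Set ℤ) := by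
      intro s hs t ht hst
      have e1 := hAval s (hS' hs) i
      have e2 := hAval t (hS' ht) i
      simp only at hst
      rw [hst, e2] at e1
      exact_mod_cast e1.symm
    refine eq_zero_of_natDegree_lt_card_of_eval_eq_zero' u (S'.image fun s : ℤ => ξ i (s : ℂ))
      ?_ ?_
    · intro z hz
      obtain ⟨s, hs, rfl⟩ := Finset.mem_image.mp hz
      rw [huval s hs i]
      exact Finset.prod_eq_zero hi (sub_self _)
    · rw [Finset.card_image_of_injOn hinj]
      omega
  obtain ⟨s, hs⟩ : S'.Nonempty := by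
    rw [← Finset.card_pos]; omega
  have h3 := huval s hs j
  rw [hu0, eval_zero] at h3
  obtain ⟨i', hi', hz⟩ := Finset.prod_eq_zero_iff.mp h3.symm
  have h4 : j = i' := hL.inj _ (hball s (hS' hs)) (sub_eq_zero.mp hz)
  rw [← h4] at hi'
  simp only [O, Finset.mem_filter, Finset.mem_univ, true_and] at hi'
  exact hij hi'.symm

end Pool.Agent.Helper59.EP.HITO
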